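import Pool.Agent.MP_cce4c9_lc.H87.SpecR

/-!
From presented fields to fields given by an irreducible polynomial over the prime field.
-/

set_option autoImplicit false

open Polynomial Finset Pool.Agent.Shared.H56

namespace Pool.Agent.MP_cce4c9_lc.H11

open H87

/-- Transport of a presentation along an isomorphism. -/
def transport {D : Ds} {R S : Type} [CommRing R] [CommRing S] (π : Pres D R) (e : R ≃+* S) :
    Pres D S where
  b i := e (π.b i)
  prime := π.prime
  char := by rw [← map_natCast e, π.char, map_zero]
  pos := π.pos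
  one := by rw [π.one, map_one]
  tab i hi j hj := by
    rw [← map_mul, π.tab i hi j hj, map_sum]
    simp only [map_mul, map_natCast]
  indep c h := π.indep c (e.injective (by
    rw [map_sum, map_zero]
    simpa only [map_mul, map_natCast] using h))
  span r := by
    obtain ⟨c, hc⟩ := π.span (e.symm r)
    refine ⟨c, ?_⟩
    rw [← e.apply_symm_apply r, hc, map_sum]
    simp only [map_mul, map_natCast]

theorem transport_val {D : Ds} {R S : Type} [CommRing R] [CommRing S] (π : Pres D R) (e : R ≃+* S)
    (a : El) : (transport π e).val a = e (π.val a) := by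
  rw [Pres.val, Pres.val, map_sum]
  simp only [map_mul, map_natCast, transport]

/-- The tower that presents the field. -/
def tw (p : ℕ) (g : List ℕ) : Ds × List El := tower (base p) (g.map fun c => [c]) 1

/-- The coefficients, as elements of the tower. -/
def co (p : ℕ) (g : List ℕ) (cs : List (List ℕ)) : List El :=
  cs.map fun c => horner (tw p g).1 (c.map (cst (tw p g).1)) ((tw p g).2.getD 0 [])

theorem getD_map {α β : Type} (f : α → β) (l : List α) (a : α) (b : β) {i : ℕ}
    (hi : i < l.length) : (l.map f).getD i b = f (l.getD i a) := by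
  simp [List.getD_eq_getElem?_getD, hi]

theorem exists_pres (p : ℕ) [Fact p.Prime] (g : List ℕ)
    [hG : Fact (Irreducible (X ^ g.length + polyOf p g))] :
    ∃ π : Pres (tw p g).1 (AdjoinRoot (X ^ g.length + polyOf p g)),
      π.val ((tw p g).2.getD 0 []) = AdjoinRoot.root _ := by
  have hg : g ≠ [] := by
    rintro rfl
    exact hG.out.not_isUnit (by simp [polyOf])
  obtain ⟨π, hπ⟩ := exists_pres_base p
  obtain ⟨R', _, ⟨T⟩⟩ := exists_tow π (h := g.map fun c => [c]) (by simpa using hg) 1
  have hM : toM π.val (g.map fun c => [c]) = X ^ g.length + polyOf p g := by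
    rw [toM, toP, polyOf, List.length_map]
    congr 1
    refine sum_congr rfl fun i hi => ?_
    rw [getD_map _ g 0 _ (mem_range.1 hi), hπ]
    rfl
  have hr := T.isRoot 0 one_pos
  rw [hM] at hr
  have := KTow.nontriv T.π'
  let ψ := AdjoinRoot.lift T.inc _ hr
  have hsurj : Function.Surjective ψ := by
    intro r
    obtain ⟨a, -, rfl⟩ := T.π'.val_surj r
    rw [T.expand a]
    refine ⟨∑ J ∈ range ((g.map fun c => [c]).length ^ 1),
      AdjoinRoot.of _ (π.val (chunk (base p) a J)) *
        AdjoinRoot.root _ ^ dig (g.map fun c => [c]).length J 0, ?_⟩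
    rw [map_sum]
    refine sum_congr rfl fun J _ => ?_
    rw [map_mul, map_pow, AdjoinRoot.lift_of, AdjoinRoot.lift_root, prod_range_one]
  let e := RingEquiv.ofBijective ψ ⟨ψ.injective, hsurj⟩
  refine ⟨transport T.π' e.symm, ?_⟩
  rw [transport_val, RingEquiv.symm_apply_eq]
  exact (AdjoinRoot.lift_root hr).symm

theorem main : StmtVAL → StmtMAIN := by
  intro hV d
  obtain ⟨A, hA, h⟩ := hV d
  refine ⟨fun x => A ((tw x.1 x.2.1).1, co x.1 x.2.1 x.2.2), hA.comp ?_, ?_⟩
  · unfold co tw
    fun_prop
  · intro p g cs hp hG hcs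
    have := Fact.mk hp
    have := Fact.mk hG
    obtain ⟨π, hπ⟩ := exists_pres p g
    refine (h _ _ π (co p g cs) (by simpa [co] using hcs)).trans ?_
    congr 2
    funext a
    rw [toP, eval_finsetSum, co, List.length_map]
    refine sum_congr rfl fun i hi => ?_
    rw [getD_map _ cs [] _ (mem_range.1 hi), π.hm.horner, hπ, eval_mul, eval_C, eval_pow, eval_X]
    refine congrArg (· * a ^ i) ?_
    rw [toP, eval_finsetSum, List.length_map]
    conv_rhs => arg 2; rw [polyOf]
    rw [map_sum]
    refine sum_congr rfl fun j hj => ?_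
    rw [getD_map _ _ 0 _ (mem_range.1 hj), π.hm.cst, eval_mul, eval_C, eval_pow, eval_X, map_mul,
      map_pow, AdjoinRoot.mk_X, map_natCast, map_natCast]

end Pool.Agent.MP_cce4c9_lc.H11
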